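import Mathlib

namespace Pool.Agent.Results.MP_59f064_al.Pow

theorem result (R : Type*) [Ring R]
    (hR : ∀ b : R, ∃ n : ℕ, 1 ≤ n ∧ ∃ y : R, b ^ n = b ^ n * y * b ^ n)
    (a : R) (ha : ∃ x : R, a = a * x * a) :
    ∃ k : ℕ, 2 ≤ k ∧ ∃ y : R, a ^ k = a ^ k * y * a ^ k := by
  obtain ⟨x, hx⟩ := ha
  have h1 : ∀ k : ℕ, a ^ (k + 1) * x * a = a ^ (k + 1) := by
    intro k
    rw [pow_succ, mul_assoc (a ^ k), mul_assoc (a ^ k), ← hx]
  have h2 : ∀ k : ℕ, (a * a * x) ^ (k + 1) = a ^ (k + 2) * x := by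
    intro k
    induction k with
    | zero => simp [sq]
    | succ k ih =>
      rw [pow_succ, ih, ← mul_assoc, ← mul_assoc, h1 (k + 1), ← pow_succ]
  obtain ⟨n, hn, y, hy⟩ := hR (a * a * x)
  obtain ⟨k, rfl⟩ : ∃ k, n = k + 1 := ⟨n - 1, by omega⟩
  refine ⟨k + 2, by omega, x * y, ?_⟩
  rw [h2] at hy
  have h3 : a ^ (k + 2) * x * a = a ^ (k + 2) * x * y * (a ^ (k + 2) * x) * a :=
    congrArg (· * a) hy
  rw [mul_assoc _ (a ^ (k + 2) * x) a, h1 (k + 1)] at h3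
  rw [← mul_assoc]
  exact h3

end Pool.Agent.Results.MP_59f064_al.Pow
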